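import Pool.Agent.H929.BG.Stm

/-!
# BG: the initial data, emptiness
-/

set_option autoImplicit false

namespace Pool.Agent.H740.BG

open Finset Pool.Agent.H929.BG Pool.Agent.H929.BW

lemma rt_pow (n : ℕ) {y : ℝ} (hy : 0 ≤ y) : (y ^ ((1 : ℝ) / (n + 1))) ^ (n + 1) = y := by
  rw [← Real.rpow_natCast, ← Real.rpow_mul hy, one_div]
  push_cast
  rw [inv_mul_cancel₀ (by positivity), Real.rpow_one]

lemma rt_pow' (n : ℕ) {y : ℝ} (hy : 0 ≤ y) :
    (y ^ ((1 : ℝ) / (n + 1))) ^ n = y ^ ((n : ℝ) / (n + 1)) := by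
  rw [← Real.rpow_natCast, ← Real.rpow_mul hy]
  congr 1
  ring

lemma rt_nonneg (n : ℕ) {y : ℝ} (hy : 0 ≤ y) : 0 ≤ y ^ ((1 : ℝ) / (n + 1)) :=
  Real.rpow_nonneg hy _

theorem t_NumE : S_NumE := by
  intro n Λ C hn hΛ hC
  have hn0 : (0 : ℝ) ≤ n := Nat.cast_nonneg n
  set L : ℝ := 1 + n / 2 + Λ with hL
  have hL0 : 0 ≤ L := by positivity
  set c₁ : ℝ := 1 + n / 2 with hc1
  have hc10 : 0 ≤ c₁ := by positivity
  have k1 : 0 ≤ (2 * C) ^ (n + 1) := by positivity
  have k2 : 0 ≤ C * c₁ ^ n := by positivity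
  have k3 : 0 ≤ 5 * 2 ^ (n + 1) * (36 * L) ^ (n + 1) := by positivity
  refine ⟨2 + (2 * C) ^ (n + 1) + C * c₁ ^ n + 5 * 2 ^ (n + 1) * (36 * L) ^ (n + 1),
    by linarith, ?_⟩
  intro A r d hA hd
  set K : ℝ := 2 + (2 * C) ^ (n + 1) + C * c₁ ^ n + 5 * 2 ^ (n + 1) * (36 * L) ^ (n + 1) with hK
  have hK2 : 2 ≤ K := by linarith
  have hKC : (2 * C) ^ (n + 1) ≤ K := by linarith
  have hKc : C * c₁ ^ n ≤ K := by linarith
  have hKL : 5 * 2 ^ (n + 1) * (36 * L) ^ (n + 1) ≤ K := by linarith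
  obtain ⟨ane, aone, amany, alow⟩ := hA
  -- volumes
  set V : ℕ → ℝ := fun v => r v * PP n v with hV
  set x : ℕ → ℝ := fun v => (V v) ^ ((1 : ℝ) / (n + 1)) with hx
  have hPP0 : ∀ v : ℕ, 0 ≤ PP n v := fun v => PP_nonneg' n v
  have hV0 : ∀ v, 0 ≤ V v := fun v => mul_nonneg (Nat.cast_nonneg _) (hPP0 v)
  have hx0 : ∀ v, 0 ≤ x v := fun v => rt_nonneg n (hV0 v)
  have hxN : ∀ v, x v ^ (n + 1) = V v := fun v => rt_pow n (hV0 v)
  have hxn : ∀ v, x v ^ n = (V v) ^ ((n : ℝ) / (n + 1)) := fun v => rt_pow' n (hV0 v)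
  have hv1 : ∀ v ∈ A, (1 : ℝ) ≤ v := fun v hv => by exact_mod_cast aone v hv
  have hPP1 : ∀ v ∈ A, (1 : ℝ) ≤ PP n v := fun v hv =>
    le_trans (one_le_pow₀ (hv1 v hv)) (PP_lower n (Nat.cast_nonneg v))
  have hVK : ∀ v ∈ A, K * PP n v ≤ V v := fun v hv =>
    mul_le_mul_of_nonneg_right (amany v hv) (hPP0 v)
  have hVK' : ∀ v ∈ A, K ≤ V v := fun v hv => by
    have h1 := hVK v hv
    have h2 := hPP1 v hv
    nlinarith
  -- the surface
  have hs : C * ∑ v ∈ A, x v ^ n ≤ K * surf n A r := by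
    unfold surf
    rw [Finset.mul_sum, Finset.mul_sum]
    refine Finset.sum_le_sum fun v hv => ?_
    have h1 : V v ≤ c₁ ^ (n + 1) * ((r v : ℝ) * (v : ℝ) ^ (n + 1)) := by
      have h2 : PP n v ≤ (c₁ * v) ^ (n + 1) := by
        refine (PP_mid n (Nat.cast_nonneg v)).trans ?_
        apply pow_le_pow_left₀ (by positivity)
        have := hv1 v hv
        have h3 : (n : ℝ) / 2 ≤ n / 2 * v := by nlinarith
        rw [hc1]
        linarith
      have h3 : V v ≤ r v * (c₁ * v) ^ (n + 1) :=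
        mul_le_mul_of_nonneg_left h2 (Nat.cast_nonneg _)
      rw [mul_pow] at h3
      linarith
    have h4 : x v ^ n ≤ c₁ ^ n * ((r v : ℝ) * (v : ℝ) ^ (n + 1)) ^ ((n : ℝ) / (n + 1)) := by
      rw [hxn]
      refine (Real.rpow_le_rpow (hV0 v) h1 (by positivity)).trans (le_of_eq ?_)
      rw [Real.mul_rpow (by positivity) (by positivity)]
      congr 1
      rw [← Real.rpow_natCast, ← Real.rpow_mul hc10, ← Real.rpow_natCast]
      congr 1
      push_cast
      field_simp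
    have h5 : 0 ≤ ((r v : ℝ) * (v : ℝ) ^ (n + 1)) ^ ((n : ℝ) / (n + 1)) :=
      Real.rpow_nonneg (by positivity) _
    calc C * x v ^ n ≤ C * (c₁ ^ n * ((r v : ℝ) * (v : ℝ) ^ (n + 1)) ^ ((n : ℝ) / (n + 1))) :=
          mul_le_mul_of_nonneg_left h4 hC
      _ = (C * c₁ ^ n) * ((r v : ℝ) * (v : ℝ) ^ (n + 1)) ^ ((n : ℝ) / (n + 1)) := by ring
      _ ≤ _ := mul_le_mul_of_nonneg_right hKc h5
  set Q : ℝ := ∑ v ∈ A, (V v - C * x v ^ n) with hQ
  have hdQ : (d : ℝ) ^ (n + 1) ≤ Q := by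
    have : Q = ∑ v ∈ A, V v - C * ∑ v ∈ A, x v ^ n := by
      rw [hQ, Finset.sum_sub_distrib, Finset.mul_sum]
    rw [this]
    linarith
  -- half of the volume
  have hhalf : ∀ v ∈ A, V v / 2 ≤ V v - C * x v ^ n := by
    intro v hv
    have h1 : 2 * C ≤ x v := by
      refine le_of_pow_le_pow_left₀ (n := n + 1) (by omega) (hx0 v) ?_
      rw [hxN]
      exact hKC.trans (hVK' v hv)
    have h2 : 2 * C * x v ^ n ≤ x v * x v ^ n :=
      mul_le_mul_of_nonneg_right h1 (pow_nonneg (hx0 v) n)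
    have h3 : x v * x v ^ n = V v := by rw [← hxN v, pow_succ]; ring
    linarith
  have hWpos : ∀ v ∈ A, 0 < V v - C * x v ^ n := by
    intro v hv
    have h1 := hhalf v hv
    have h2 := hVK' v hv
    linarith
  have hQV : ∀ v ∈ A, V v / 2 ≤ Q := by
    intro v hv
    refine (hhalf v hv).trans ?_
    exact Finset.single_le_sum (f := fun v => V v - C * x v ^ n)
      (fun u hu => (hWpos u hu).le) hv
  have hQ1 : 1 ≤ Q := by
    obtain ⟨v, hv⟩ := ane
    have h1 := hQV v hv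
    have h2 := hVK' v hv
    linarith
  have hQ0 : 0 < Q := by linarith
  -- the degree
  set ρ : ℝ := Q ^ ((1 : ℝ) / (n + 1)) with hρ
  have hρ0 : 0 ≤ ρ := rt_nonneg n hQ0.le
  have hρN : ρ ^ (n + 1) = Q := rt_pow n hQ0.le
  set d' : ℕ := ⌊ρ⌋₊ with hd'
  have hd'1 : (d' : ℝ) ≤ ρ := Nat.floor_le hρ0
  have hd'2 : ρ < d' + 1 := Nat.lt_floor_add_one ρ
  have hρ1 : 1 ≤ ρ := by
    refine le_of_pow_le_pow_left₀ (n := n + 1) (by omega) hρ0 ?_
    rw [hρN, one_pow]
    exact hQ1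
  have hd'3 : 1 ≤ d' := by
    rw [hd']
    exact (Nat.one_le_floor_iff ρ).2 hρ1
  have hd'R : (1 : ℝ) ≤ d' := by exact_mod_cast hd'3
  have hdd' : d ≤ d' := by
    rw [hd']
    apply Nat.le_floor
    refine le_of_pow_le_pow_left₀ (n := n + 1) (by omega) hρ0 ?_
    rw [hρN]
    exact hdQ
  have hup : (d' : ℝ) ^ (n + 1) ≤ Q := by
    rw [← hρN]
    exact pow_le_pow_left₀ (by positivity) hd'1 _
  have hlo : Q ≤ 2 ^ (n + 1) * (d' : ℝ) ^ (n + 1) := by
    rw [← hρN, ← mul_pow]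
    exact pow_le_pow_left₀ hρ0 (by linarith) _
  set θ : ℝ := (d' : ℝ) ^ (n + 1) / Q with hθ
  have hθ0 : 0 < θ := by positivity
  have hθ1 : θ ≤ 1 := by rw [hθ, div_le_one hQ0]; exact hup
  have hθ2 : 1 ≤ 2 ^ (n + 1) * θ := by
    rw [hθ, ← mul_div_assoc, le_div_iff₀ hQ0, one_mul]
    exact hlo
  have hθQ : θ * Q = (d' : ℝ) ^ (n + 1) := by
    rw [hθ]
    field_simp
  set U : ℕ → ℝ := fun v => θ * (V v - C * x v ^ n) with hU
  have hU0 : ∀ v ∈ A, 0 < U v := fun v hv => mul_pos hθ0 (hWpos v hv)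
  have hUsum : ∑ v ∈ A, U v = (d' : ℝ) ^ (n + 1) := by
    rw [← hθQ, hQ, Finset.mul_sum]
  set X : ℝ := (d' : ℝ) / 3 with hX
  have hX0 : 0 < X := by positivity
  have hXN : 0 < X ^ (n + 1) := by positivity
  set h : ℕ → ℝ := fun v => (2 * U v / 5) ^ ((1 : ℝ) / (n + 1)) with hh
  have hh0 : ∀ v ∈ A, 0 ≤ h v := fun v hv => rt_nonneg n (by have := hU0 v hv; positivity)
  have hhN : ∀ v ∈ A, h v ^ (n + 1) = 2 * U v / 5 := fun v hv =>
    rt_pow n (by have := hU0 v hv; positivity)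
  have hUV : ∀ v ∈ A, V v ≤ 2 ^ (n + 1) * 5 * h v ^ (n + 1) := by
    intro v hv
    rw [hhN v hv]
    have h1 := hhalf v hv
    have h2 : 1 * (V v / 2) ≤ 2 ^ (n + 1) * θ * (V v - C * x v ^ n) :=
      mul_le_mul hθ2 h1 (by have := hV0 v; positivity) (by positivity)
    have h3 : U v = θ * (V v - C * x v ^ n) := rfl
    have h4 : 2 ^ (n + 1) * U v = 2 ^ (n + 1) * θ * (V v - C * x v ^ n) := by rw [h3]; ring
    have h5 : 2 ^ (n + 1) * 5 * (2 * U v / 5) = 2 * (2 ^ (n + 1) * U v) := by ring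
    rw [h5, h4]
    linarith
  have hsumβ : ∑ v ∈ A, U v / X ^ (n + 1) = 3 ^ (n + 1) := by
    rw [← Finset.sum_div, hUsum, hX, div_pow]
    field_simp
  have hgg0 : ∀ v : ℕ, 0 ≤ gg n v := fun v => gg_nonneg n v
  -- comparison with the multiples of `L v`
  have hLg : ∀ v ∈ A, gg n v + Λ ≤ L * v := by
    intro v hv
    have h1 := gg_le n v
    have h2 := hv1 v hv
    rw [hL]
    nlinarith
  have hLg' : ∀ v ∈ A, gg n v + Λ ≤ L * gg n v := by
    intro v hv
    have h1 := le_gg n v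
    have h2 := hv1 v hv
    rw [hL]
    nlinarith
  refine ⟨d', fun v => U v / X ^ (n + 1), h, hdd', ?_, hsumβ, ?_⟩
  · refine ⟨ane, aone, ?_, ?_, ?_, ?_, ?_, ?_⟩
    · -- big
      intro v hv
      have h1 : 36 * (gg n v + Λ) ≤ d' := by
        refine le_of_pow_le_pow_left₀ (n := n + 1) (by omega) (by positivity) ?_
        have h2 : (36 * (gg n v + Λ)) ^ (n + 1) ≤ (36 * L * gg n v) ^ (n + 1) := by
          apply pow_le_pow_left₀
          · have := hgg0 v
            positivity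
          · have := hLg' v hv
            linarith
        have h3 : (36 * L * gg n v) ^ (n + 1) = (36 * L) ^ (n + 1) * PP n v := by
          rw [mul_pow, gg_pow]
        have h4 : 5 * 2 ^ (n + 1) * (36 * L) ^ (n + 1) * PP n v ≤ V v :=
          (mul_le_mul_of_nonneg_right hKL (hPP0 v)).trans (hVK v hv)
        have h5 := hQV v hv
        have h6 : 0 ≤ (36 * L) ^ (n + 1) * PP n v := mul_nonneg (by positivity) (hPP0 v)
        have h7 : (0 : ℝ) < 2 ^ (n + 1) := by positivity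
        rw [h3] at h2
        have h8 : 2 ^ (n + 1) * ((36 * L) ^ (n + 1) * PP n v) ≤ 2 ^ (n + 1) * (d' : ℝ) ^ (n + 1) := by
          nlinarith
        exact h2.trans (le_of_mul_le_mul_left h8 h7)
      linarith
    · -- hbig
      intro v hv
      refine le_of_pow_le_pow_left₀ (n := n + 1) (by omega) (hh0 v hv) ?_
      have h2 : (24 * (gg n v + Λ)) ^ (n + 1) ≤ (36 * L * gg n v) ^ (n + 1) := by
        apply pow_le_pow_left₀
        · have := hgg0 v
          positivity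
        · have := hLg' v hv
          have := hgg0 v
          nlinarith
      have h3 : (36 * L * gg n v) ^ (n + 1) = (36 * L) ^ (n + 1) * PP n v := by
        rw [mul_pow, gg_pow]
      rw [h3] at h2
      have h4 : 5 * 2 ^ (n + 1) * (36 * L) ^ (n + 1) * PP n v ≤ V v :=
        (mul_le_mul_of_nonneg_right hKL (hPP0 v)).trans (hVK v hv)
      have h5 := hUV v hv
      have h7 : (0 : ℝ) < 2 ^ (n + 1) * 5 := by positivity
      have h8 : 2 ^ (n + 1) * 5 * ((36 * L) ^ (n + 1) * PP n v) ≤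
          2 ^ (n + 1) * 5 * h v ^ (n + 1) := by
        linarith
      exact h2.trans (le_of_mul_le_mul_left h8 h7)
    · -- used
      intro v hv hXh
      constructor
      · rw [le_div_iff₀ hXN]
        have h1 : X ^ (n + 1) ≤ h v ^ (n + 1) := pow_le_pow_left₀ hX0.le hXh _
        rw [hhN v hv] at h1
        linarith
      · have h1 : U v / X ^ (n + 1) ≤ 3 ^ (n + 1) := by
          rw [← hsumβ]
          exact Finset.single_le_sum (f := fun v => U v / X ^ (n + 1))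
            (fun u hu => (div_pos (hU0 u hu) hXN).le) hv
        refine h1.trans ?_
        exact pow_le_pow_right₀ (by norm_num) (by omega)
    · -- unused
      intro v hv _
      rw [hhN v hv]
      show U v / X ^ (n + 1) * X ^ (n + 1) = 5 / 2 * (2 * U v / 5)
      field_simp
    · -- lower
      intro w hw hne
      have h1 : (24 * (gg n w + Λ)) ^ (n + 1) ≤ (36 * L * w) ^ (n + 1) := by
        apply pow_le_pow_left₀
        · have := hgg0 w
          positivity
        · have := hLg w hw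
          have := hgg0 w
          nlinarith
      have h2 := alow w hw hne
      have h3 : ∑ u ∈ low A w, (r u : ℝ) * (u : ℝ) ^ (n + 1) ≤
          ∑ u ∈ low A w, 2 ^ (n + 1) * 5 * h u ^ (n + 1) := by
        refine Finset.sum_le_sum fun u hu => ?_
        have hu' : u ∈ A := (Finset.mem_filter.1 hu).1
        refine le_trans ?_ (hUV u hu')
        exact mul_le_mul_of_nonneg_left (PP_lower n (Nat.cast_nonneg u)) (Nat.cast_nonneg _)
      rw [← Finset.mul_sum] at h3
      have h4 : 5 * 2 ^ (n + 1) * (36 * L) ^ (n + 1) * (w : ℝ) ^ (n + 1) ≤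
          K * (w : ℝ) ^ (n + 1) := mul_le_mul_of_nonneg_right hKL (by positivity)
      have h7 : (0 : ℝ) < 2 ^ (n + 1) * 5 := by positivity
      have h8 : 2 ^ (n + 1) * 5 * (36 * L * w) ^ (n + 1) ≤
          2 ^ (n + 1) * 5 * ∑ u ∈ low A w, h u ^ (n + 1) := by
        rw [mul_pow]
        linarith
      exact h1.trans (le_of_mul_le_mul_left h8 h7)
    · -- total
      right
      have h1 : ∑ u ∈ A, h u ^ (n + 1) = 2 / 5 * (d' : ℝ) ^ (n + 1) := by
        rw [← hUsum, Finset.mul_sum]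
        refine Finset.sum_congr rfl fun u hu => ?_
        rw [hhN u hu]
        ring
      rw [h1, div_pow]
      have h2 : (9 : ℝ) ≤ 3 ^ (n + 1) := by
        calc (9 : ℝ) = 3 ^ 2 := by norm_num
          _ ≤ 3 ^ (n + 1) := pow_le_pow_right₀ (by norm_num) (by omega)
      have h3 : (0 : ℝ) < (d' : ℝ) ^ (n + 1) := by positivity
      rw [div_le_iff₀ (by positivity)]
      nlinarith
  · intro v hv
    have h1 : U v / X ^ (n + 1) * X ^ (n + 1) = U v := by field_simp
    have h2 : h v ≤ x v := by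
      refine le_of_pow_le_pow_left₀ (n := n + 1) (by omega) (hx0 v) ?_
      rw [hhN v hv, hxN v]
      have h3 : U v ≤ V v := by
        have h4 : U v ≤ 1 * (V v - C * x v ^ n) :=
          mul_le_mul_of_nonneg_right hθ1 (hWpos v hv).le
        have h5 : 0 ≤ C * x v ^ n := mul_nonneg hC (pow_nonneg (hx0 v) n)
        linarith
      have := hV0 v
      linarith
    have h3 : (min X (h v)) ^ n ≤ x v ^ n :=
      pow_le_pow_left₀ (le_min hX0.le (hh0 v hv)) ((min_le_right _ _).trans h2) n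
    have h4 : C * (min X (h v)) ^ n ≤ C * x v ^ n := mul_le_mul_of_nonneg_left h3 hC
    have h5 : U v ≤ 1 * (V v - C * x v ^ n) :=
      mul_le_mul_of_nonneg_right hθ1 (hWpos v hv).le
    rw [gg_pow]
    show U v / X ^ (n + 1) * X ^ (n + 1) + C * (min X (h v)) ^ n ≤ V v
    rw [h1]
    linarith

end Pool.Agent.H740.BG
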